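import Pool.Agent.Q57.FG.TopA

/-!
# Finite generation of the adjoint rings of toroidal log canonical pairs on covers of projective space

Let `F k`, `k = 0, ..., n`, be forms of degrees `d k` in `n + 1` variables whose zero sets in the
projective `n`-space are smooth hypersurfaces with normal crossings. Let `K` be the function field
of an abelian cover of the projective space which is branched only along these hypersurfaces: `K`
is generated by the affine coordinates and by roots `z j`,
`z j ^ (m j) = ∏ k, (F k (x) / x 0 ^ (d k)) ^ (a j k)`, where `m j` divides `∑ k, a j k * d k`. (For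
`n ≥ 2` all finite covers which are branched only along these hypersurfaces are abelian; covers
which are branched along fewer hypersurfaces are included: add general hyperplanes, `a j k = 0`.)

A prime divisor `P` over the cover (a divisorial place of `K`) has the vector `multiplicities F d x P`
of the multiplicities `v k` of the hypersurfaces along `P`. The vectors `v ≠ 0` of nonnegative
integers, not all positive, with `m j ∣ ∑ k, a j k * v k` for all `j` are the `Admissible` ones.

**The pairs.** The boundaries `Δ 1, ..., Δ p` are given by functions `c i`, with `c i ≤ 1`, on the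
vectors: `- c i v` is the discrepancy of the pair `(X, Δ i)` along the divisors with the vector `v`.
So `c i v` is the coefficient of `Δ i` if `P` is a divisor on the variety. Examples are the toroidal
modifications `X` of the cover, given by a subdivision of the fan of the faces of the positive
orthant, with any divisors `Δ i = ∑ δ_{i, ρ} D_ρ` supported over the hypersurfaces with rational
coefficients `0 ≤ δ_{i, ρ} ≤ 1` (log canonical pairs): for `v ≠ 0`, `1 - c i v` is the function which
is linear on the cones of the fan and equal to `1 - δ_{i, ρ}` at the generator `ρ` of a ray; the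
`w s` of `AreBoundaries.finite` are the coefficients of `v` with respect to the generators of the
rays of a cone which contains `v`. If different models are used for the different `i`, take a common
refinement of the fans. The case `c i = 0` is that of the canonical divisor of a smooth model.

**The theorem.** The multigraded ring of all sections of all divisors `∑ i, μ i (K_X + Δ i)`,
`μ ∈ ℕ ^ p`, is a finitely generated algebra over the complex numbers. For `p = 1` this is the log
canonical ring of `(X, Δ)`. If `K_X + Δ` is pseudo-effective, the finite generation is one of the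
main predictions of the minimal model program for log canonical pairs; it is known for klt pairs
and `p = 1`, and (for all `p`) for klt pairs with big boundaries (Birkar, Cascini, Hacon, McKernan).
Here the pairs are log canonical, the boundaries are not big, and nothing is assumed about the
divisors `K_X + Δ i`.

The elements of the ring are given by the tuples of sections of `∑ i, μ i (K_X + Δ i)` for all `μ`,
almost all of them zero: a section is a function of `n` rational vector fields on `X` (a rational
`∑ i, μ i`-canonical form) with a condition at all divisorial places of `K`, and the tuple is written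
as a polynomial in `p` variables.
-/

set_option autoImplicit false

open FF MvPolynomial Pool.Agent.W602.GT

namespace Pool.Agent.Results.MP_c1e25c_ag.AdjointRings

/-- The hypersurfaces `F k = 0` have normal crossings: at every point of the projective space the
gradients of the forms `F k` which vanish at this point are linearly independent. -/
def NormalCrossings {n : ℕ} (F : Fin (n + 1) → MvPolynomial (Fin (n + 1)) ℂ) : Prop :=
  ∀ x : Fin (n + 1) → ℂ, x ≠ 0 → LinearIndependent ℂ
    fun (k : {k // eval x (F k) = 0}) (l : Fin (n + 1)) => eval x (pderiv l (F k.1))

/-- The affine coordinates of the projective space. -/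
noncomputable def affine {n : ℕ} {K : Type} [Field K] (x : Fin (n + 1) → K) (b : Fin n) : K :=
  x b.succ / x 0

section

variable {n R p : ℕ}

/-- The multiplicities which satisfy the divisibility conditions. -/
def Admissible (m : Fin R → ℕ) (a : Fin R → Fin (n + 1) → ℕ) (v : Fin (n + 1) → ℕ) : Prop :=
  v ≠ 0 ∧ (∃ k, v k = 0) ∧ ∀ j, m j ∣ ∑ k, a j k * v k

/-- The functions `c i` are the functions of the coefficients of boundaries: they are at most one
(the pairs are log canonical), the boundaries are supported over the hypersurfaces, the log
discrepancies `1 - c i` are at most homogeneous along the rays, and for a finite set `T` of vectors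
every admissible vector `v` is at least a nonnegative combination of the vectors in `T`, such that
all `1 - c i v` are at most the combinations of the values at the vectors in `T`. -/
structure AreBoundaries (m : Fin R → ℕ) (a : Fin R → Fin (n + 1) → ℕ)
    (c : Fin p → (Fin (n + 1) → ℕ) → ℚ) : Prop where
  zero : ∀ i, c i 0 = 0
  le_one : ∀ i v, c i v ≤ 1
  ray : ∀ i v (r : ℕ), 1 ≤ r → Admissible m a v → 1 - c i (r • v) ≤ r * (1 - c i v)
  finite : ∃ T : Finset (Fin (n + 1) → ℕ), (∀ s ∈ T, Admissible m a s) ∧ ∀ v, Admissible m a v →
    ∃ w : (Fin (n + 1) → ℕ) → ℚ, (∀ s, 0 ≤ w s) ∧ (∀ k, ∑ s ∈ T, w s * s k ≤ v k) ∧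
      ∀ i, 1 - c i v ≤ ∑ s ∈ T, w s * (1 - c i s)

variable {K : Type} [Field K] [Algebra ℂ K]

/-- The multiplicities of the hypersurfaces `F k = 0` along the prime divisor `P`; the `x j` are the
homogeneous coordinates, which are divided by one of minimal order at `P`. -/
noncomputable def multiplicities (F : Fin (n + 1) → MvPolynomial (Fin (n + 1)) ℂ)
    (d : Fin (n + 1) → ℕ) (x : Fin (n + 1) → K) (P : Place ℂ K) (k : Fin (n + 1)) : ℕ :=
  (P.ord (aeval x (F k)) -
    d k * Finset.univ.inf' Finset.univ_nonempty fun j => P.ord (x j)).toNat

/-- `ω` is a section of `∑ i, μ i (K + Δ i)`: a rational section of the power of the canonical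
bundle with the exponent `∑ i, μ i` (`IsPluri`: a function of `N` rational vector fields which is
multiplied by the power of `det B` under a linear substitution `B`) whose order on the vector fields
which are regular at `P` is at least `- ∑ i, μ i * δ i P`, where `δ i P` is the coefficient of `Δ i`,
for all prime divisors `P` (all divisorial places `P` of `K`). -/
def IsSection (N : ℕ) (δ : Fin p → Place ℂ K → ℚ) (μ : Fin p →₀ ℕ)
    (ω : (Fin N → Derivation ℂ K K) → K) : Prop :=
  IsPluri (∑ i, μ i) ω ∧ ∀ P : Place ℂ K, Divisorial N P →
    ∀ D : Fin N → Derivation ℂ K K, (∀ c, DerReg P (D c)) → ω D = 0 ∨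
      - ∑ i, (μ i : ℚ) * δ i P ≤ P.ord (ω D)

/-- The multigraded ring of the sections of the divisors `∑ i, μ i (K + Δ i)`: the polynomials in `p`
variables, with values in the functions of `N` vector fields, whose coefficients are sections. -/
def adjointRing (N : ℕ) (δ : Fin p → Place ℂ K → ℚ) :
    Set ((Fin N → Derivation ℂ K K) → MvPolynomial (Fin p) K) :=
  {f | ∀ μ, IsSection N δ μ fun D => coeff μ (f D)}

end

/-- **Finite generation of adjoint rings.** Let `K` be the function field of an abelian cover of the
projective `n`-space which is branched along `n + 1` hypersurfaces `F k = 0` with normal crossings,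
and let `Δ 1, ..., Δ p` be the boundaries which are given by `c`: the coefficient of `Δ i` along a
prime divisor `P` is `c i v`, where `v` is the vector of the multiplicities of the hypersurfaces
along `P`. Then the ring of the sections of all `∑ i, μ i (K + Δ i)`, `μ ∈ ℕ ^ p`, is generated by
finitely many elements as an algebra over the complex numbers. -/
theorem result (n R p : ℕ) (hn : 1 ≤ n) (d : Fin (n + 1) → ℕ) (hd : ∀ k, 1 ≤ d k)
    (F : Fin (n + 1) → MvPolynomial (Fin (n + 1)) ℂ) (hF : ∀ k, (F k).IsHomogeneous (d k))
    (hs : NormalCrossings F) (m : Fin R → ℕ) (hm : ∀ j, 1 ≤ m j) (a : Fin R → Fin (n + 1) → ℕ)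
    (hdiv : ∀ j, m j ∣ ∑ k, a j k * d k)
    (K : Type) [Field K] [Algebra ℂ K] (x : Fin (n + 1) → K) (hx0 : x 0 ≠ 0)
    (hbas : IsTranscendenceBasis ℂ (affine x)) (z : Fin R → K)
    (hz : ∀ j, z j ^ m j = ∏ k, (aeval x (F k) / x 0 ^ d k) ^ a j k)
    (hgen : IntermediateField.adjoin ℂ (Set.range (affine x) ∪ Set.range z) = ⊤)
    (c : Fin p → (Fin (n + 1) → ℕ) → ℚ) (hc : AreBoundaries m a c)
    (δ : Fin p → Place ℂ K → ℚ) (hδ : ∀ i P, δ i P = c i (multiplicities F d x P)) :
    ∃ G : Finset ((Fin n → Derivation ℂ K K) → MvPolynomial (Fin p) K),
      (Algebra.adjoin ℂ (G : Set ((Fin n → Derivation ℂ K K) → MvPolynomial (Fin p) K)) :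
        Set ((Fin n → Derivation ℂ K K) → MvPolynomial (Fin p) K)) = adjointRing n δ := by
  obtain ⟨e, rfl⟩ : ∃ e, n = e + 1 := ⟨n - 1, by omega⟩
  obtain ⟨G, hG⟩ := Pool.Agent.Q57.FG.main_fg hx0 hbas hd hF hs hm hz hdiv hgen hc.zero hc.le_one
    hc.ray hc.finite hδ
  refine ⟨G, ?_⟩
  rw [hG]
  rfl

end Pool.Agent.Results.MP_c1e25c_ag.AdjointRings
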