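import Pool.Agent.Q68.MF.Main

/-!
# The second outcome of the minimal model program for toroidal pairs on arbitrary covers

Let `V i`, `i = 1, ..., r`, be a projective variety of dimension `n i ≥ 1` in the projective
`M i`-space, and let `F (i, k)`, `k = 0, ..., n i`, be forms of degrees `d (i, k)` which have no common
zero on `V i`. Let `K` be any finite extension of the function field of the product
`V = V 1 × ... × V r`, of any degree and with any Galois group. The homogeneous coordinates of the
generic point of `V i` are `x i j`, `j = 0, ..., M i`. Suppose that the canonical divisor of `V i` is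
the multiple `κ i` of the hyperplane section: there is a rational differential form `Ω` of the maximal
degree such that the forms `Ω * ∏ i, (x i j) ^ (κ i)`, where `x i j` is a coordinate which is not zero
at a given point, are local generators of the canonical bundle of `V`. So
`logDiscrepancy F d κ x Ω P` is the log discrepancy of the pair `(V, ∑ (i, k), (F (i, k) = 0))` along
the prime divisor `P` over `V` (a divisorial place of `K`). In the theorem `Ω` may be any nonzero
rational form and `κ i` any integers.

**The pairs.** A prime divisor `P` has the vector `multiplicities F d x P` of the multiplicities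
`v (i, k)` of the hypersurface sections `F (i, k) = 0` along `P`. It is a vector of a face: for every
`i` some `v (i, k)` is zero. There are two boundaries `Δ 0` and `Δ 1` on `X`: the log discrepancy of
`(X, Δ i)` along any prime divisor `P` over `X` is `ψ i v + logDiscrepancy F d κ x Ω P`, `v` the
vector of `P`, so that the `coefficient` of `P` in the pullback of `K + Δ i` is
`δ i P = 1 - ψ i v - logDiscrepancy F d κ x Ω P`. The functions `ψ i` are homogeneous and, for example,
linear on the cones of a subdivision of the fan of the faces (`AreLogDiscrepancies`): these are the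
toroidal divisors on the toroidal modifications `X` of the covers of `V` which are unramified outside
the zero sets of the forms, with arbitrary rational coefficients (log canonical if `ψ i ≥ 0`). Let
`Δ t = (1 - t) Δ 0 + t Δ 1`, `0 ≤ t ≤ 1`. With `H = Δ 1 - Δ 0` the minimal model program for `K + Δ 0`
with scaling of `H` decreases `t` from `1`. If `K + Δ 0` is not pseudo-effective, it should stop at
the pseudo-effective threshold `τ` with a Mori fibre space: a model `X'` with a map to a variety `Z` of
smaller dimension such that `K + Δ τ` is the pullback of a divisor of `Z` (which may be taken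
ample), so that `-(K + Δ 0)` is a positive multiple of `H` on the fibres.

**The theorem.** There are an integer `T ≥ 1` and a finite set `Θ` of rational numbers which depend
only on the dimensions `n i`, the degrees `d (i, k)`, the integers `κ i` and the functions `ψ 0`,
`ψ 1`, such that for all `V i`, all forms `F (i, k)` of these degrees, all fields `K` and all forms
`Ω`, if `K + Δ 0` is not pseudo-effective and `K + Δ 1` is pseudo-effective:

* (the threshold) There is a rational number `τ` in `Θ`, `0 < τ ≤ 1`, such that `K + Δ t` is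
  pseudo-effective if and only if `τ ≤ t`.
* (the fibration) The divisor `T (K + Δ τ)` is integral, and there is `k < N = dim X` such that the
  sections of `T (K + Δ τ)` define a map whose image has dimension at least `k`, and
  `h⁰ (m T (K + Δ τ) + A) ≤ C m ^ k` for every divisor `A`. So the Kodaira dimension and the numerical
  dimension of `K + Δ τ` are equal to `k`, and the Iitaka fibration `X --> Z` is defined by the
  sections of `T (K + Δ τ)` and has fibres of positive dimension `N - k`. The divisors
  `K + Δ t + c (K + Δ τ)`, `t < τ`, `c ≥ 0`, are positive multiples of divisors `K + Δ s` with `s < τ`,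
  so they are not pseudo-effective: `K + Δ t` is not pseudo-effective on the fibres of `X --> Z`.
* (the steps) For every prime divisor `P` over `V` and every frame `D` of rational vector fields
  there is a function `σ` of `t`, `τ ≤ t ≤ 1`, which is affine between neighbouring elements of `Θ` and
  whose value `σ t` is the asymptotic order of vanishing of `K + Δ t` along `P` (Nakayama's `σ_P`). So
  on the way from `1` to `τ` the models change only at the elements of `Θ`: the number of the steps
  is bounded by the number of the elements of `Θ`.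
* (the models) If `a` and `b` are nonnegative integers, not both zero, and
  `t = b / (a + b) ≥ τ`, then `T (a (K + Δ 0) + b (K + Δ 1))` has for every `P` a section whose order at
  `P` is exactly `T (a + b) σ t`, the asymptotic order. So the mobile part of this divisor is base
  point free on a resolution. This holds also for `t = τ`, where the divisor is not big.

For klt pairs and big `H` this is the theorem of Birkar, Cascini, Hacon and McKernan, with constants
which depend on the variety. Here the pairs are log canonical or worse and `H` is arbitrary, and the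
constants are the same for all covers of all `V i` with the given numerical data.
-/

set_option autoImplicit false

open FF MvPolynomial Pool.Agent.W602.GT

namespace Pool.Agent.Results.MP_c1e25c_ag.MoriFibreOutcome

/-- The index `(i, k)` of the `n i + 1` hypersurface sections of the variety `V i`. -/
abbrev Hypersurface {r : ℕ} (n : Fin r → ℕ) := (i : Fin r) × Fin (n i + 1)

section places

variable {r N p : ℕ} {n M : Fin r → ℕ} {K : Type} [Field K] [Algebra ℂ K]

/-- The ratios of the forms `F (i, k + 1)` and `F (i, 0)`, raised to powers of the same degree. -/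
noncomputable def ratio (F : ∀ b : Hypersurface n, MvPolynomial (Fin (M b.1 + 1)) ℂ)
    (d : Hypersurface n → ℕ) (x : ∀ i, Fin (M i + 1) → K) (b : (i : Fin r) × Fin (n i)) : K :=
  aeval (x b.1) (F ⟨b.1, b.2.succ⟩) ^ d ⟨b.1, 0⟩ /
    aeval (x b.1) (F ⟨b.1, 0⟩) ^ d ⟨b.1, b.2.succ⟩

/-- The forms `F (i, k)` have no common zero on `V i`, the variety of the points at which all forms
vanish which vanish at the generic point `x i`. -/
def NoCommonZeros (F : ∀ b : Hypersurface n, MvPolynomial (Fin (M b.1 + 1)) ℂ)
    (x : ∀ i, Fin (M i + 1) → K) : Prop :=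
  ∀ i, ∀ y : Fin (M i + 1) → ℂ, y ≠ 0 →
    (∀ (G : MvPolynomial (Fin (M i + 1)) ℂ) (m : ℕ), G.IsHomogeneous m → aeval (x i) G = 0 →
      eval y G = 0) → ∃ k, eval y (F ⟨i, k⟩) ≠ 0

/-- The minimal order at `P` of the homogeneous coordinates `y` of one factor. -/
noncomputable def minimalOrder {k : ℕ} (y : Fin (k + 1) → K) (P : Place ℂ K) : ℤ :=
  Finset.univ.inf' Finset.univ_nonempty fun j => P.ord (y j)

/-- The multiplicities of the hypersurface sections `F (i, k) = 0` along the prime divisor `P`; the
`x i j` are the homogeneous coordinates of the `i`-th factor, which are divided by one of minimal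
order at `P`. -/
noncomputable def multiplicities (F : ∀ b : Hypersurface n, MvPolynomial (Fin (M b.1 + 1)) ℂ)
    (d : Hypersurface n → ℕ) (x : ∀ i, Fin (M i + 1) → K) (P : Place ℂ K) (b : Hypersurface n) :
    ℕ :=
  (P.ord (aeval (x b.1) (F b)) - d b * minimalOrder (x b.1) P).toNat

/-- The order of the form `Ω` along `P`: the minimal order of its values at vector fields which are
regular at `P`. -/
noncomputable def formOrder (Ω : (Fin N → Derivation ℂ K K) → K) (P : Place ℂ K) : ℤ :=
  sInf {k : ℤ | ∃ D : Fin N → Derivation ℂ K K, (∀ c, DerReg P (D c)) ∧ Ω D ≠ 0 ∧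
    P.ord (Ω D) = k}

/-- The log discrepancy along `P` of the product of the `V i`, with the boundary
`∑ (i, k), (F (i, k) = 0)`, if the forms `Ω * ∏ i, (x i j) ^ (κ i)` are local generators of the
canonical bundle, `x i j` a coordinate of minimal order at `P`. -/
noncomputable def logDiscrepancy (F : ∀ b : Hypersurface n, MvPolynomial (Fin (M b.1 + 1)) ℂ)
    (d : Hypersurface n → ℕ) (κ : Fin r → ℤ) (x : ∀ i, Fin (M i + 1) → K)
    (Ω : (Fin N → Derivation ℂ K K) → K) (P : Place ℂ K) : ℤ :=
  formOrder Ω P + 1 - ∑ b, (multiplicities F d x P b : ℤ) + ∑ i, κ i * minimalOrder (x i) P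

/-- The coefficient of `P` in the pullback of `K + Δ`, for the divisor with the function `ψ`: the log
discrepancy along `P` is `ψ v + logDiscrepancy F d κ x Ω P`, `v` the vector of the multiplicities. -/
noncomputable def coefficient (F : ∀ b : Hypersurface n, MvPolynomial (Fin (M b.1 + 1)) ℂ)
    (d : Hypersurface n → ℕ) (κ : Fin r → ℤ) (x : ∀ i, Fin (M i + 1) → K)
    (Ω : (Fin N → Derivation ℂ K K) → K) (ψ : (Hypersurface n → ℕ) → ℚ) (P : Place ℂ K) : ℚ :=
  1 - ψ (multiplicities F d x P) - logDiscrepancy F d κ x Ω P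

/-- The vectors of the faces: for every `i` one of the entries is zero. -/
def IsFaceVector (v : Hypersurface n → ℕ) : Prop := ∀ i, ∃ k, v ⟨i, k⟩ = 0

/-- The functions `ψ i` on the vectors of the faces are homogeneous, and for a finite set `T` of
nonzero vectors of the faces every vector `v` of a face is a nonnegative combination of the vectors
in `T`, such that all `ψ i v` are at most the combinations of the values at the vectors in `T` (for
functions which are linear on the cones of a fan let `T` be the generators of the rays). -/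
structure AreLogDiscrepancies (ψ : Fin p → (Hypersurface n → ℕ) → ℚ) : Prop where
  homogeneous : ∀ i v (k : ℕ), 1 ≤ k → IsFaceVector v → ψ i (k • v) = k * ψ i v
  finite : ∃ T : Finset (Hypersurface n → ℕ), (∀ s ∈ T, IsFaceVector s ∧ s ≠ 0) ∧
    ∀ v, IsFaceVector v → ∃ w : (Hypersurface n → ℕ) → ℚ, (∀ s, 0 ≤ w s) ∧
      (∀ b, (v b : ℚ) = ∑ s ∈ T, w s * s b) ∧ ∀ i, ψ i v ≤ ∑ s ∈ T, w s * ψ i s

end places

section sections

variable {K : Type} [Field K] [Algebra ℂ K] {p : ℕ} (N : ℕ) (δ : Fin p → Place ℂ K → ℚ)

/-- `ω` is a section of `∑ i, μ i (K + Δ i) + j A`: a rational section of the power of the canonical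
bundle with the exponent `∑ i, μ i` (`IsPluri`: a function of `N` rational vector fields which is
multiplied by the power of `det B` under a linear substitution `B`) whose order on the vector fields
which are regular at `P` is at least `j` times the order of one of the functions in `S`, minus
`∑ i, μ i * δ i P`, where `δ i P` is the coefficient of `P` in the pullback of `K + Δ i`, for all
prime divisors `P` (all divisorial places `P` of `K`). Here `A` is the divisor which is generated by
the finite set `S` of functions; `A = 0` if `S = {1}`. -/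
def IsSection (S : Finset K) (μ : Fin p →₀ ℕ) (j : ℕ) (ω : (Fin N → Derivation ℂ K K) → K) :
    Prop :=
  IsPluri (∑ i, μ i) ω ∧ ∀ P : Place ℂ K, Divisorial N P → ∀ D : Fin N → Derivation ℂ K K,
    (∀ c, DerReg P (D c)) → ω D = 0 ∨ ∃ s ∈ S, s ≠ 0 ∧
      (j : ℚ) * P.ord s - ∑ i, (μ i : ℚ) * δ i P ≤ P.ord (ω D)

/-- The real combination `∑ i, lam i (K + Δ i)` is pseudo-effective: there is a divisor `A` such that
for all `M` a positive multiple `j (M ∑ i, lam i (K + Δ i) + A)` has a nonzero section, after a
change of the coefficients `j M lam i` by at most `j`. -/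
def Pseudoeffective (lam : Fin p → ℝ) : Prop :=
  ∃ S : Finset K, ∀ M : ℕ, ∃ j : ℕ, 1 ≤ j ∧ ∃ μ : Fin p →₀ ℕ,
    (∀ i, |(μ i : ℝ) - j * M * lam i| ≤ j) ∧ ∃ η, η ≠ 0 ∧ IsSection N δ S μ j η

/-- `s` is the asymptotic order of vanishing of `∑ i, lam i (K + Δ i)` along `P`, where the orders of
the sections are those of their values at the vector fields `D`: the orders of all sections of
divisors `∑ i, μ i (K + Δ i) + j A`, `μ ≠ 0`, which are close to `M ∑ i, lam i (K + Δ i)` are at
least `(s - ε) M`, and there are such sections, with `A = 0`, of order at most `(s + ε) M`. -/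
def IsAsymptoticOrder (P : Place ℂ K) (D : Fin N → Derivation ℂ K K) (lam : Fin p → ℝ) (s : ℝ) :
    Prop :=
  (∀ ε : ℝ, 0 < ε → ∀ S : Finset K, ∃ θ : ℝ, 0 < θ ∧ ∃ M₀ : ℕ, ∀ M : ℕ, M₀ ≤ M →
    ∀ (μ : Fin p →₀ ℕ) (j : ℕ) (η : (Fin N → Derivation ℂ K K) → K), μ ≠ 0 →
      (∀ i, |(μ i : ℝ) - M * lam i| ≤ θ * M) → (j : ℝ) ≤ θ * M → IsSection N δ S μ j η →
        η D ≠ 0 → (s - ε) * M ≤ P.ord (η D)) ∧
  ∀ ε : ℝ, 0 < ε → ∀ M₀ : ℕ, ∃ M : ℕ, M₀ ≤ M ∧ ∃ (μ : Fin p →₀ ℕ)
    (η : (Fin N → Derivation ℂ K K) → K), (∀ i, |(μ i : ℝ) - M * lam i| ≤ ε * M) ∧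
      IsSection N δ {1} μ 0 η ∧ η D ≠ 0 ∧ (P.ord (η D) : ℝ) ≤ (s + ε) * M

/-- The sections of `∑ i, μ i (K + Δ i)` define a rational map whose image has dimension at least
`h`: there are sections whose ratios contain `h` algebraically independent functions (for `h = 0`:
there is a nonzero section). -/
def ImageGe (μ : Fin p →₀ ℕ) (h : ℕ) : Prop :=
  ∃ ω : Fin (h + 1) → (Fin N → Derivation ℂ K K) → K, (∀ b, IsSection N δ {1} μ 0 (ω b)) ∧
    ∃ D, ω 0 D ≠ 0 ∧ AlgebraicIndependent ℂ (fun b : Fin h => ω b.succ D / ω 0 D)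

/-- The numerical dimension of `D = ∑ i, μ i (K + Δ i)` is at most `h`: for every divisor `A` there is
a constant `C` such that `h⁰ (m D + A) ≤ C m ^ h` for all `m ≥ 1`. -/
def NumericalLe (μ : Fin p →₀ ℕ) (h : ℕ) : Prop :=
  ∀ S : Finset K, ∃ C : ℕ, ∀ m M : ℕ, 1 ≤ m →
    (∃ ω : Fin M → (Fin N → Derivation ℂ K K) → K, LinearIndependent ℂ ω ∧
      ∀ l, IsSection N δ S (m • μ) 1 (ω l)) → M ≤ C * m ^ h

end sections

/-- The coefficients of `K + Δ t = (1 - t) (K + Δ 0) + t (K + Δ 1)`. -/
def segment (t : ℝ) : Fin 2 → ℝ := ![1 - t, t]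

/-- **The main theorem.** For given dimensions `n i`, degrees `d (i, k)`, integers `κ i` and functions
`ψ 0`, `ψ 1` there are an integer `T ≥ 1` and a finite set `Θ` of rational numbers such that for all
projective varieties `V i` of dimension `n i` with `n i + 1` forms of the degrees `d (i, k)` without
common zeros, all finite extensions `K` of the function field of the product and all forms `Ω` with
`K + Δ 0` not pseudo-effective and `K + Δ 1` pseudo-effective: there is a pseudo-effective threshold
`τ` in `Θ`, the divisor `K + Δ τ` has equal Kodaira and numerical dimension `k < N`, given by the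
sections of `T (K + Δ τ)`, and for `τ ≤ t ≤ 1` the asymptotic orders of `K + Δ t` along every prime
divisor are affine functions of `t` between the elements of `Θ`, which are attained by sections of the
multiples by `T`. -/
theorem result (r N : ℕ) (n : Fin r → ℕ) (hn : ∀ i, 1 ≤ n i) (hN1 : 1 ≤ N)
    (hN : N = ∑ i, n i) (d : Hypersurface n → ℕ) (hd : ∀ b, 1 ≤ d b) (κ : Fin r → ℤ)
    (ψ : Fin 2 → (Hypersurface n → ℕ) → ℚ) (hψ : AreLogDiscrepancies ψ) :
    ∃ (T : ℕ) (Θ : Finset ℚ), 1 ≤ T ∧
      ∀ (K : Type) [Field K] [Algebra ℂ K] [Algebra.EssFiniteType ℂ K] (M : Fin r → ℕ)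
        (F : ∀ b : Hypersurface n, MvPolynomial (Fin (M b.1 + 1)) ℂ)
        (x : ∀ i, Fin (M i + 1) → K) (Ω : (Fin N → Derivation ℂ K K) → K)
        (δ : Fin 2 → Place ℂ K → ℚ),
        (∀ b, (F b).IsHomogeneous (d b)) → (∀ i j, x i j ≠ 0) → NoCommonZeros F x →
        IsTranscendenceBasis ℂ (ratio F d x) → IsPluri 1 Ω → Ω ≠ 0 →
        (∀ i, δ i = coefficient F d κ x Ω (ψ i)) →
        ¬ Pseudoeffective N δ (segment 0) → Pseudoeffective N δ (segment 1) →
        ∃ τ ∈ Θ, 0 < τ ∧ τ ≤ 1 ∧
          (∀ t : ℝ, 0 ≤ t → t ≤ 1 → (Pseudoeffective N δ (segment t) ↔ (τ : ℝ) ≤ t)) ∧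
          (∃ μ : Fin 2 →₀ ℕ, (μ 0 : ℚ) = T * (1 - τ) ∧ (μ 1 : ℚ) = T * τ ∧ ∃ k, k < N ∧
            ImageGe N δ μ k ∧ NumericalLe N δ μ k) ∧
          ∀ (P : Place ℂ K) (D : Fin N → Derivation ℂ K K),
            (∃ S μ j η, μ ≠ 0 ∧ IsSection N δ S μ j η ∧ η D ≠ 0) →
            ∃ σ : ℝ → ℝ,
              (∀ t : ℝ, (τ : ℝ) ≤ t → t ≤ 1 → IsAsymptoticOrder N δ P D (segment t) (σ t)) ∧
              (∀ s x t : ℝ, (τ : ℝ) ≤ s → s ≤ x → x ≤ t → t ≤ 1 →
                (∀ θ ∈ Θ, ¬ (s < θ ∧ (θ : ℝ) < t)) →
                  (t - s) * σ x = (t - x) * σ s + (x - s) * σ t) ∧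
              ∀ a b : ℕ, 1 ≤ a + b → (τ : ℝ) * (a + b) ≤ b →
                ∃ μ : Fin 2 →₀ ℕ, μ 0 = T * a ∧ μ 1 = T * b ∧
                  ∃ η, IsSection N δ {1} μ 0 η ∧ η D ≠ 0 ∧
                    (P.ord (η D) : ℝ) = T * (a + b) * σ (b / (a + b)) := by
  obtain ⟨T0, hT0, hT1⟩ := hψ.finite
  obtain ⟨T, Θ, hT, H⟩ := Pool.Agent.Q68.MF.main_mf hn hN1 hN hd κ (ψ := ψ)
    ⟨T0, hψ.homogeneous, hT0, hT1⟩
  refine ⟨T, Θ, hT, ?_⟩
  intro K _ _ _ M F x Ω δ hF hx hno hbas hΩ hΩ0 hδ h0 h1
  obtain ⟨τ, h2, h3, h4, h5, ⟨μ, h6, h7, k, h8, ⟨ω, h9, h10⟩, h11⟩, h12⟩ :=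
    H K M F x Ω δ hF hx hno hbas hΩ hΩ0 (fun i P => congrFun (hδ i) P) h0 h1
  refine ⟨τ, h2, h3, h4, h5, ⟨μ, h6, h7, k, h8,
    ⟨ω, fun b => Pool.Agent.Q57.GG.msec_asec (h9 b), h10⟩, h11⟩, fun P D hD => ?_⟩
  obtain ⟨σ, h13, h14, h15⟩ := h12 P D hD
  refine ⟨σ, fun t ht ht1 => ?_, h14, fun a b hab hle => ?_⟩
  · obtain ⟨h16, h17⟩ := h13 t ht ht1
    refine ⟨h16, fun ε hε M₀ => ?_⟩
    obtain ⟨M, hM, μ, η, h18, h19, h20, h21⟩ := h17 ε hε M₀
    exact ⟨M, hM, μ, η, h18, Pool.Agent.Q57.GG.msec_asec h19, h20, h21⟩
  · obtain ⟨μ, h16, h17, η, h18, h19, h20⟩ := h15 a b hab hle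
    exact ⟨μ, h16, h17, η, Pool.Agent.Q57.GG.msec_asec h18, h19, h20⟩

end Pool.Agent.Results.MP_c1e25c_ag.MoriFibreOutcome
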