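import Pool.Agent.Q47.THR.Final

/-!
# The second outcome of the minimal model program for toric bundles over quotients of complex tori

Let `X = V / Γ` be the quotient of a complex torus of any dimension by any finite group (with or
without fixed points and reflections, projective or not), and let `Y → X` be a toric bundle: a
locally trivial bundle whose fibre is a smooth complete toric variety, twisted by arbitrary line
bundles `c_i` on `X` (for example the projective bundle of a direct sum of line bundles). Let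
`Δ_0` and `Δ_1` be effective `ℚ`-divisors on `Y` such that `D_j = m (K_Y + Δ_j)` is integral and such
that the pair `(Y_v, Δ_j)` is log canonical for one fibre `Y_v` of `Y → X` (which may depend on `j`;
no condition over the other points, and the `Δ_j` need not be invariant under the torus). Let
`Δ_t = (1 - t) Δ_0 + t Δ_1`.

The theorem: assume that `K_Y + Δ_0` is not pseudo-effective and that `K_Y + Δ_1` is (for example
`Δ_1 = Δ_0 + H` with a general divisor `H` of a large multiple of an ample class, divided by the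
multiple: the minimal model program with scaling). Then

* there is a rational number `τ`, `0 < τ ≤ 1`, such that for rational `t ∈ [0, 1]` the class
  `K_Y + Δ_t` is pseudo-effective if and only if `t ≥ τ`, and then a multiple of it is effective;
* for `t = τ` there is `κ < dim Y` such that the number of sections of the multiples
  `k (K_Y + Δ_τ)` grows like `k ^ κ`, and the number of sections of `k (K_Y + Δ_τ) + A` grows at most
  like `k ^ κ` for every line bundle `A` (so `κ` is the Kodaira dimension and the numerical dimension);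
* `K_Y + Δ_τ` has a good model: there are finitely many sections `G_j = s_j x ^ a_j` of a multiple
  `N L` of `L = m' (K_Y + Δ_τ)` such that for each `A` all sections `G` of `k L + A` satisfy
  `|G| ^ N ∏ |x_i| ^ C ≤ C' (∑ |G_j|) ^ k` on compact sets, where `C` does not depend on `k` and `G`. So
  after the blow-up of the ideal of the `G_j` the Nakayama-Zariski decomposition of `N L` has a base
  point free positive part, which defines a fibration onto a variety of dimension `κ < dim Y`, on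
  the fibres of which it is trivial: the analogue of a Mori fibre space structure.

`IsSmoothFan`, `LinEquiv`, `IsSection`, `IsLogPluricanonical` and `IsLogCanonical` are defined in
`Pool.Agent.Q47.TB.Defs`, `IsTorusQuotient` and `LineBundle` (given by a factor of automorphy `L.e`)
in `Pool.Agent.W594.SYZ.Defs2`, `IsChernForm` in `Pool.Agent.W594.SYZ.TQDefs` and `IsRamification` in
`Pool.Agent.TH735.AQ.MirDefs`.

The proof. The pseudo-effective classes `p D_0 + q D_1` are those for which a polytope `P(p, q)` is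
not empty, and these form a cone spanned by finitely many integral vectors. The product of powers of
the equations of `m Δ_0` and `m Δ_1` defines a boundary for `p D_0 + q D_1` whose weights are the sums
of the weights, so that the results for one pair apply: the number of sections grows with the
exponent `dim P + R`, where `R` is the maximal rank of the nef classes. If this were `dim Y` for
`(p, q) = (p_0, q_0)`, then there would be a point of `P` with positive coordinates and a positive
definite class, and `K (p_0, q_0) + (1, 0)` would be pseudo-effective for large `K`.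
-/

set_option autoImplicit false

universe u w

namespace Pool.Agent.Results.MP_c1e25c_ag.ToricBundleThreshold

open Pool.Agent.W594.SYZ2 Pool.Agent.TH735.AQ Q47.TB MvPolynomial

variable {V : Type u} [NormedAddCommGroup V] [NormedSpace ℂ V] {Γ : Subgroup (V ≃ᵃ[ℂ] V)}
  {ι : Type w} [Fintype ι] {n : ℕ}

/-- The space of the global sections of the line bundle `O_Y(d; e)`. (They form a linear space.) -/
noncomputable def Sec (r : ι → Fin n → ℤ) (c : ι → LineBundle Γ) (d : ι → ℤ) (e : Γ → V → ℂ) :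
    Submodule ℂ (V → MvPolynomial ι ℂ) :=
  Submodule.span ℂ {G | IsSection r c d e G}

/-- The dimension of the space of the global sections. -/
noncomputable def h0 (r : ι → Fin n → ℤ) (c : ι → LineBundle Γ) (d : ι → ℤ) (e : Γ → V → ℂ) : ℕ :=
  Module.finrank ℂ (Sec r c d e)

/-- `O_Y(d; e)` has a section which is not zero. -/
def IsEffective (r : ι → Fin n → ℤ) (c : ι → LineBundle Γ) (d : ι → ℤ) (e : Γ → V → ℂ) : Prop :=
  ∃ G, IsSection r c d e G ∧ ∃ v, G v ≠ 0

/-- `D = O_Y(d; e)` is pseudo-effective: for some line bundle `A = O_Y(b; M)` with a Chern form,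
`k D + A` has a nonzero section for infinitely many `k`. -/
def IsPseudoeffective (r : ι → Fin n → ℤ) (c : ι → LineBundle Γ) (d : ι → ℤ) (e : Γ → V → ℂ) :
    Prop :=
  ∃ (M : LineBundle Γ) (HM : V → V → ℂ) (b : ι → ℤ), IsChernForm M HM ∧
    ∃ᶠ k : ℕ in Filter.atTop,
      IsEffective r c (fun i => k * d i + b i) fun γ v => e γ v ^ k * M.e γ v

/-- The class of `p D_0 + q D_1`. -/
def cls (D : Fin 2 → ι → ℤ) (p q : ℕ) : ι → ℤ := fun i => p * D 0 i + q * D 1 i

/-- The factor of automorphy of `p D_0 + q D_1`. -/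
def fac (L : Fin 2 → LineBundle Γ) (p q : ℕ) : Γ → V → ℂ :=
  fun γ v => (L 0).e γ v ^ p * (L 1).e γ v ^ q

/-- For `D = O_Y(d; e)` one has `h^0(k D) ≥ C k ^ κ` for some `C > 0` and infinitely many `k`, and for
each line bundle `A = O_Y(b; M)` there is `C` with `h^0(k D + A) ≤ C k ^ κ` for all `k ≥ 1`. -/
def HasDimension (r : ι → Fin n → ℤ) (c : ι → LineBundle Γ) (d : ι → ℤ) (e : Γ → V → ℂ)
    (κ : ℕ) : Prop :=
  (∃ C : ℝ, 0 < C ∧ ∃ᶠ k : ℕ in Filter.atTop,
    C * (k : ℝ) ^ κ ≤ h0 r c (fun i => k * d i) fun γ v => e γ v ^ k) ∧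
  ∀ (M : LineBundle Γ) (HM : V → V → ℂ), IsChernForm M HM → ∀ b : ι → ℤ,
    ∃ C : ℕ, ∀ k : ℕ, 1 ≤ k →
      FiniteDimensional ℂ (Sec r c (fun i => k * d i + b i) fun γ v => e γ v ^ k * M.e γ v) ∧
      h0 r c (fun i => k * d i + b i) (fun γ v => e γ v ^ k * M.e γ v) ≤ C * k ^ κ

/-- For `D = O_Y(d; e)` there are `N ≥ 1` and finitely many sections `G_j = s_j ∏ x_i ^ a_ij` of `N D`
such that for each line bundle `A = O_Y(b; M)` there is a number `C` such that on each compact set
`|G'| ^ N ∏ |x_i| ^ C ≤ C' (∑ |G_j|) ^ k` for all `k ≥ 1` and all sections `G'` of `k D + A`. -/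
def HasGoodModel (r : ι → Fin n → ℤ) (c : ι → LineBundle Γ) (d : ι → ℤ) (e : Γ → V → ℂ) : Prop :=
  ∃ (N t : ℕ) (G : Fin t → V → MvPolynomial ι ℂ), 1 ≤ N ∧
    (∀ j, IsSection r c (fun i => N * d i) (fun γ v => e γ v ^ N) (G j)) ∧
    (∀ j, ∃ (a : ι → ℕ) (s : V → ℂ), ∀ v x, eval x (G j v) = s v * ∏ i, x i ^ a i) ∧
    ∀ (M : LineBundle Γ) (HM : V → V → ℂ), IsChernForm M HM → ∀ b : ι → ℤ, ∃ C : ℕ,
      ∀ k : ℕ, 1 ≤ k → ∀ G' : V → MvPolynomial ι ℂ,
        IsSection r c (fun i => k * d i + b i) (fun γ v => e γ v ^ k * M.e γ v) G' →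
          ∀ K : Set (V × (ι → ℂ)), IsCompact K → ∃ C' : ℝ, ∀ z ∈ K,
            ‖eval z.2 (G' z.1)‖ ^ N * ∏ i, ‖z.2 i‖ ^ C ≤
              C' * (∑ j, ‖eval z.2 (G j z.1)‖) ^ k

/-- Let `X = V / Γ` be a torus quotient, let `ρ` define the ramification divisor of `V → X`, let
`Y → X` be the toric bundle given by a smooth complete fan with the rays `r i` and by line bundles
`c i` on `X` with Chern forms `Hc i`, let `F j` define the effective divisor `m Δ_j` on `Y`
(`j = 0, 1`), and let `D_j = m (K_Y + Δ_j)`, which is the line bundle `O_Y(D j; L j)`, where `L j` has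
the Chern form `H j`. Assume that for each `j` the fibre `(Y_v, Δ_j)` is log canonical for some
`v = v₀ j`, that `D_0` is not pseudo-effective and that `D_1` is pseudo-effective.

There are integers `p₀ ≥ 0` and `q₀ ≥ 1` such that

(1) for all integers `p, q ≥ 0` the line bundle `p D_0 + q D_1` is pseudo-effective if and only if
`q₀ p ≤ p₀ q`, and if and only if `k (p D_0 + q D_1)` has a nonzero section for some `k ≥ 1`,

(2) for `L = p₀ D_0 + q₀ D_1` there is `κ < dim Y = n + dim V` such that `h^0(k L) ≥ C k ^ κ` for some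
`C > 0` and infinitely many `k`, and for each line bundle `A = O_Y(b; M)` there is `C` such that
`h^0(k L + A) ≤ C k ^ κ` for all `k ≥ 1`,

(3) there are `N ≥ 1` and finitely many sections `G_j = s_j ∏ x_i ^ a_ij` of `N L` such that for each
line bundle `A = O_Y(b; M)` there is a number `C` such that on each compact set
`|G'| ^ N ∏ |x_i| ^ C ≤ C' (∑ |G_j|) ^ k` for all `k ≥ 1` and all sections `G'` of `k L + A`. -/
theorem result [FiniteDimensional ℂ V] (Γ : Subgroup (V ≃ᵃ[ℂ] V)) (hΓ : IsTorusQuotient Γ)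
    (ρ : V → ℂ) (hρ : IsRamification Γ ρ)
    (n : ℕ) (r : ι → Fin n → ℤ) (S : Set (Set ι)) (hS : IsSmoothFan r S)
    (c : ι → LineBundle Γ) (Hc : ι → V → V → ℂ) (hc : ∀ i, IsChernForm (c i) (Hc i))
    (m : ℕ) (hm : 1 ≤ m) (d : Fin 2 → ι → ℤ) (F : Fin 2 → V → MvPolynomial ι ℂ)
    (L : Fin 2 → LineBundle Γ) (H : Fin 2 → V → V → ℂ) (hL : ∀ j, IsChernForm (L j) (H j))
    (hF : ∀ j, Q47.TB.IsLogPluricanonical r c m ρ (d j) (F j) (L j))
    (v₀ : Fin 2 → V) (hlc : ∀ j, IsLogCanonical S m (F j (v₀ j)))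
    (D : Fin 2 → ι → ℤ) (hD : D = fun j i => d j i - m)
    (h₀ : ¬ IsPseudoeffective r c (D 0) (L 0).e) (h₁ : IsPseudoeffective r c (D 1) (L 1).e) :
    ∃ p₀ q₀ : ℕ, 1 ≤ q₀ ∧
      (∀ p q : ℕ, (IsPseudoeffective r c (cls D p q) (fac L p q) ↔ q₀ * p ≤ p₀ * q) ∧
        (IsPseudoeffective r c (cls D p q) (fac L p q) ↔
          ∃ k : ℕ, 1 ≤ k ∧ IsEffective r c (fun i => k * cls D p q i)
            fun γ v => fac L p q γ v ^ k)) ∧
      (∃ κ : ℕ, κ < n + Module.finrank ℂ V ∧
        HasDimension r c (cls D p₀ q₀) (fac L p₀ q₀) κ) ∧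
      HasGoodModel r c (cls D p₀ q₀) (fac L p₀ q₀) := by
  classical
  have hsec : ∀ (d : ι → ℤ) (e : Γ → V → ℂ), Sec r c d e = Q47.TK.secY r c d e := fun d e =>
    Submodule.span_eq (Q47.TK.secY r c d e)
  have hh0 : ∀ (d : ι → ℤ) (e : Γ → V → ℂ),
      h0 r c d e = Module.finrank ℂ (Q47.TK.secY r c d e) := fun d e => by rw [h0, hsec]
  have hT : ∀ j, ∀ α ∈ (F j (v₀ j)).support, ∃ v, coeff α (F j v) ≠ 0 := fun j α hα =>
    ⟨v₀ j, mem_support_iff.1 hα⟩
  have hw := fun j => weights_of_lc hm (hlc j)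
  have hgr := Q47.THR.growth_prod hΓ hρ hS hc hL hF (fun j => (F j (v₀ j)).support) hT hw hD
  -- pseudo-effective classes
  have hps : ∀ p q : ℕ,
      (IsPseudoeffective r c (fun i => p * D 0 i + q * D 1 i)
        (fun γ v => (L 0).e γ v ^ p * (L 1).e γ v ^ q) →
          (Q47.GEO.P (s := 1) r D H Hc ![p, q]).Nonempty) ∧
      ((Q47.GEO.P (s := 1) r D H Hc ![p, q]).Nonempty →
        ∃ᶠ k : ℕ in Filter.atTop, IsEffective r c (fun i => k * (p * D 0 i + q * D 1 i))
              fun γ v => ((L 0).e γ v ^ p * (L 1).e γ v ^ q) ^ k) := by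
    intro p q
    rcases hgr p q with ⟨hP, h2⟩ | ⟨β₀, hβ₀, ⟨C, hC, h2⟩, -⟩
    · refine ⟨?_, fun h => absurd hP h.ne_empty⟩
      rintro ⟨M, HM, b, hM, hfreq⟩
      obtain ⟨k₀, hk₀⟩ := h2 M HM hM b
      obtain ⟨k, ⟨G, hG, v, hv⟩, hk⟩ :=
        (hfreq.and_eventually (Filter.eventually_ge_atTop k₀)).exists
      have h3 : G ∈ Q47.TK.secY r c (fun i => k * (p * D 0 i + q * D 1 i) + b i)
          (fun γ v => ((L 0).e γ v ^ p * (L 1).e γ v ^ q) ^ k * M.e γ v) := hG
      rw [hk₀ k hk, Submodule.mem_bot] at h3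
      exact absurd (congrFun h3 v) hv
    · refine ⟨fun _ => ⟨β₀, hβ₀⟩, fun _ => ?_⟩
      refine (h2.and_eventually (Filter.eventually_ge_atTop 1)).mono fun k hk => ?_
      by_contra hcon
      have h3 : Q47.TK.secY r c (fun i => k * (p * D 0 i + q * D 1 i))
          (fun γ v => ((L 0).e γ v ^ p * (L 1).e γ v ^ q) ^ k) = ⊥ := by
        rw [Submodule.eq_bot_iff]
        intro G hG
        by_contra hG0
        apply hcon
        refine ⟨G, hG, ?_⟩
        by_contra h
        push Not at h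
        exact hG0 (funext h)
      have h4 := hk.1
      rw [h3, finrank_bot] at h4
      have h5 : (0 : ℝ) < k := by exact_mod_cast hk.2
      have h6 := mul_pos hC (pow_pos h5 (Module.finrank ℝ (vectorSpan ℝ
        (Q47.GEO.P (s := 1) r D H Hc ![(p : ℝ), (q : ℝ)])) + Q47.KD.rk (fun v w =>
          ∑ j : Fin (1 + 1), ((![(p : ℝ), (q : ℝ)] : Fin 2 → ℝ) j : ℂ) * H j v w
            - ∑ i, (β₀ i : ℂ) * Hc i v w)))
      rw [Nat.cast_zero] at h4
      exact absurd h6 (not_lt.2 h4)
  have hps' : ∀ p q : ℕ, (∃ᶠ k : ℕ in Filter.atTop,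
      IsEffective r c (fun i => k * (p * D 0 i + q * D 1 i))
        fun γ v => ((L 0).e γ v ^ p * (L 1).e γ v ^ q) ^ k) →
      IsPseudoeffective r c (fun i => p * D 0 i + q * D 1 i)
        (fun γ v => (L 0).e γ v ^ p * (L 1).e γ v ^ q) := by
    intro p q h
    refine ⟨Q47.KN.one Γ, _, fun _ => 0, Q47.KN.chern_one, h.mono fun k hk => ?_⟩
    have e1 : (fun i => (k : ℤ) * (p * D 0 i + q * D 1 i) + 0)
        = fun i => k * (p * D 0 i + q * D 1 i) := funext fun i => add_zero _
    have e2 : (fun (γ : Γ) (v : V) => ((L 0).e γ v ^ p * (L 1).e γ v ^ q) ^ k *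
        (Q47.KN.one Γ).e γ v) = fun γ v => ((L 0).e γ v ^ p * (L 1).e γ v ^ q) ^ k := by
      funext γ v
      exact mul_one _
    beta_reduce
    rw [e1, e2]
    exact hk
  have hz0 : ¬ (Q47.GEO.P (s := 1) r D H Hc ![1, 0]).Nonempty := by
    intro hne
    apply h₀
    have e : (![1, 0] : Fin 2 → ℝ) = ![((1 : ℕ) : ℝ), ((0 : ℕ) : ℝ)] := by simp
    rw [e] at hne
    have h2 := hps' 1 0 ((hps 1 0).2 hne)
    simpa using h2
  have hz1 : (Q47.GEO.P (s := 1) r D H Hc ![0, 1]).Nonempty := by
    have h2 : IsPseudoeffective r c (fun i => ((0 : ℕ) : ℤ) * D 0 i + ((1 : ℕ) : ℤ) * D 1 i)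
        (fun γ v => (L 0).e γ v ^ 0 * (L 1).e γ v ^ 1) := by
      simpa using h₁
    have h3 := (hps 0 1).1 h2
    simpa using h3
  obtain ⟨p₀, q₀, hq₀, hpq, hκ⟩ := Q47.THR.thr hΓ hρ hS hc hL hF
    (fun j => (F j (v₀ j)).support) hT hw hD hz0 hz1
  refine ⟨p₀, q₀, hq₀, fun p q => ⟨⟨fun h => ?_, fun h => ?_⟩, ⟨fun h => ?_, fun h => ?_⟩⟩, ?_⟩
  · have h2 := (hpq p q (Nat.cast_nonneg _) (Nat.cast_nonneg _)).1 ((hps p q).1 h)
    exact_mod_cast h2
  · exact hps' p q ((hps p q).2 ((hpq p q (Nat.cast_nonneg _) (Nat.cast_nonneg _)).2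
      (by exact_mod_cast h)))
  · exact (((hps p q).2 ((hps p q).1 h)).and_eventually
      (Filter.eventually_ge_atTop 1)).exists.imp fun k hk => ⟨hk.2, hk.1⟩
  · obtain ⟨k, hk, G, hG, v, hv⟩ := h
    refine hps' p q ?_
    rw [Filter.frequently_atTop]
    intro j
    refine ⟨k * (j + 1), by nlinarith, fun v => G v ^ (j + 1), ?_, v, pow_ne_zero _ hv⟩
    refine ⟨Q47.THR.holo_pow hG.holo _, fun v α hα => ?_, fun γ v x => ?_⟩
    · have h3 := Q47.THR.deg_pow (hG.deg v) (j + 1) α hα
      have e1 : (fun i => ((j + 1 : ℕ) : ℤ) * (k * (p * D 0 i + q * D 1 i)))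
          = fun i => ((k * (j + 1) : ℕ) : ℤ) * (p * D 0 i + q * D 1 i) := by
        funext i
        push_cast
        ring
      rw [← e1]
      exact h3
    · rw [map_pow, map_pow, hG.eq γ v x, mul_pow, ← pow_mul]
      rfl
  · have hne : (Q47.GEO.P (s := 1) r D H Hc ![(p₀ : ℝ), (q₀ : ℝ)]).Nonempty :=
      (hpq p₀ q₀ (Nat.cast_nonneg _) (Nat.cast_nonneg _)).2 (by rw [mul_comm])
    rcases hgr p₀ q₀ with ⟨hP, -⟩ | ⟨β₀, hβ₀, hlow, hup, hz⟩
    · exact absurd hP hne.ne_empty
    · refine ⟨⟨_, hκ β₀ hβ₀, ?_, fun M HM hM b => ?_⟩, hz⟩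
      · simp only [hh0]
        exact hlow
      · obtain ⟨C, h⟩ := hup M HM hM b
        refine ⟨C, fun k hk => ?_⟩
        rw [hh0, hsec]
        exact h k hk

end Pool.Agent.Results.MP_c1e25c_ag.ToricBundleThreshold
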